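import Pool.Agent.K1H44.BC.Plan

/-! Project BC, piece FIN: the final estimate. -/

set_option autoImplicit false

open Finset Nat

namespace Pool.Agent.K1H64.BC

open Pool.Agent.K1H44.BC

theorem le_choose : ∀ n k : ℕ, 1 ≤ k → k < n → n ≤ n.choose k := by
  intro n
  induction n with
  | zero => intro k _ h; omega
  | succ n ih =>
    intro k hk hkn
    obtain ⟨j, rfl⟩ : ∃ j, k = j + 1 := ⟨k - 1, by omega⟩
    rw [Nat.choose_succ_succ']
    have h1 : 1 ≤ n.choose (j + 1) := Nat.choose_pos (by omega)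
    rcases Nat.eq_zero_or_pos j with h0 | h0
    · subst h0
      rw [Nat.choose_zero_right, Nat.choose_one_right]
      omega
    · have h2 := ih j h0 (by omega)
      omega

theorem t_FIN : S_FIN := by
  intro k hk h1 h2 h3
  obtain ⟨c, hc, X0, n0, h1⟩ := h1
  obtain ⟨δ, hδ, X1, h2⟩ := h2 c hc
  obtain ⟨C1, hC1, h3⟩ := h3
  set M : ℕ := max X0 X1 with hM
  set E : ℝ := max (1 / δ) 2 with hE
  set K : ℝ := C1 * ((M : ℝ) + 1 + (2 * (k : ℝ)) ^ (1 / δ) + (2 * (k : ℝ)) ^ 2) with hK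
  have hkr : (2 : ℝ) ≤ k := by exact_mod_cast hk
  refine ⟨E + 1, max (max n0 (k + 1)) ⌈Real.exp (max K 1)⌉₊, fun n x y hn hy hxy hprod => ?_⟩
  have hn0 : n0 ≤ n := ((le_max_left _ _).trans (le_max_left _ _)).trans hn
  have hnk : k + 1 ≤ n := ((le_max_right _ _).trans (le_max_left _ _)).trans hn
  have hne : Real.exp (max K 1) ≤ n :=
    (Nat.le_ceil _).trans (by exact_mod_cast (le_max_right _ _).trans hn)
  have hnpos : (0 : ℝ) < n := by
    have : 0 < n := by omega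
    exact_mod_cast this
  set L : ℝ := Real.log n with hL
  have hLK : max K 1 ≤ L := (Real.le_log_iff_exp_le hnpos).2 hne
  have hL1 : 1 ≤ L := (le_max_right _ _).trans hLK
  have hKL : K ≤ L := (le_max_left _ _).trans hLK
  have hL0 : 0 < L := by linarith
  set s : ℕ := (PB x y).card with hs
  have hmem : ∀ p ∈ PB x y, p.Prime ∧ x ≤ p ∧ p ≤ y := by
    intro p hp
    unfold PB at hp
    rw [mem_filter, mem_Icc] at hp
    exact ⟨hp.2, hp.1.1, hp.1.2⟩
  -- the number of primes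
  have hs1 : (2 : ℕ) ^ s ≤ n ^ k := by
    calc 2 ^ s ≤ ∏ p ∈ PB x y, p := by
          rw [hs, ← Finset.prod_const]
          exact Finset.prod_le_prod' fun p hp => (hmem p hp).1.two_le
      _ = n.choose k := hprod.symm
      _ ≤ n ^ k := Nat.choose_le_pow n k
  have hsL : (s : ℝ) ≤ 2 * k * L := by
    have h4 : ((2 : ℝ)) ^ s ≤ (n : ℝ) ^ k := by exact_mod_cast hs1
    have h5 := Real.log_le_log (by positivity) h4
    rw [Real.log_pow, Real.log_pow] at h5
    have h6 : (1 : ℝ) / 2 ≤ Real.log 2 := by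
      have := Real.log_two_gt_d9
      linarith
    have h7 : (s : ℝ) * (1 / 2) ≤ s * Real.log 2 := mul_le_mul_of_nonneg_left h6 (Nat.cast_nonneg _)
    linarith
  have h2kL : 0 < 2 * (k : ℝ) * L := by positivity
  -- the first prime
  have hx : (x : ℝ) ≤ M + (2 * k * L) ^ (1 / δ) := by
    have hpow : 0 ≤ (2 * (k : ℝ) * L) ^ (1 / δ) := Real.rpow_nonneg h2kL.le _
    by_cases hxM : x ≤ M
    · have : (x : ℝ) ≤ M := by exact_mod_cast hxM
      linarith
    · rw [not_le] at hxM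
      have hX0 : X0 ≤ x := (le_max_left X0 X1).trans hxM.le
      have hX1 : X1 ≤ x := (le_max_right X0 X1).trans hxM.le
      have h4 := h1 n x y (PB x y) hn0 hX0 hxy hmem hprod
      have h5 := h2 x y hX1 hxy h4
      have h6 : (x : ℝ) ^ δ ≤ 2 * k * L := h5.trans hsL
      have h7 : (x : ℝ) = ((x : ℝ) ^ δ) ^ (1 / δ) := by
        rw [← Real.rpow_mul (Nat.cast_nonneg _), mul_one_div_cancel hδ.ne', Real.rpow_one]
      have h8 : ((x : ℝ) ^ δ) ^ (1 / δ) ≤ (2 * k * L) ^ (1 / δ) :=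
        Real.rpow_le_rpow (Real.rpow_nonneg (Nat.cast_nonneg _) _) h6 (by positivity)
      have h9 : (0 : ℝ) ≤ M := Nat.cast_nonneg _
      linarith [h7.le]
  have hy1 := h3 x y hxy hy
  -- `y ≤ K L ^ E`
  have hE1 : 1 / δ ≤ E := le_max_left _ _
  have hE2 : 2 ≤ E := le_max_right _ _
  have hLE1 : (1 : ℝ) ≤ L ^ E := Real.one_le_rpow hL1 (by linarith)
  have hLE2 : L ^ (1 / δ) ≤ L ^ E := Real.rpow_le_rpow_of_exponent_le hL1 hE1
  have hLE3 : L ^ 2 ≤ L ^ E := by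
    rw [← Real.rpow_natCast]
    exact Real.rpow_le_rpow_of_exponent_le hL1 (by exact_mod_cast hE2)
  have hyK : (y : ℝ) ≤ K * L ^ E := by
    have h4 : (2 * (k : ℝ) * L) ^ (1 / δ) = (2 * (k : ℝ)) ^ (1 / δ) * L ^ (1 / δ) :=
      Real.mul_rpow (by positivity) hL0.le
    have h5 : (s : ℝ) ^ 2 ≤ (2 * (k : ℝ)) ^ 2 * L ^ 2 := by
      rw [← mul_pow]
      exact pow_le_pow_left₀ (Nat.cast_nonneg _) hsL 2
    have h6 : (2 * (k : ℝ)) ^ (1 / δ) * L ^ (1 / δ) ≤ (2 * (k : ℝ)) ^ (1 / δ) * L ^ E :=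
      mul_le_mul_of_nonneg_left hLE2 (Real.rpow_nonneg (by positivity) _)
    have h7 : (2 * (k : ℝ)) ^ 2 * L ^ 2 ≤ (2 * (k : ℝ)) ^ 2 * L ^ E :=
      mul_le_mul_of_nonneg_left hLE3 (by positivity)
    have h8 : ((M : ℝ) + 1) ≤ ((M : ℝ) + 1) * L ^ E := by
      have h9 : (0 : ℝ) ≤ (M : ℝ) + 1 := by positivity
      nlinarith
    have h10 : (x : ℝ) + (s : ℝ) ^ 2 + 1 ≤
        ((M : ℝ) + 1 + (2 * (k : ℝ)) ^ (1 / δ) + (2 * (k : ℝ)) ^ 2) * L ^ E := by
      rw [h4] at hx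
      nlinarith
    calc (y : ℝ) ≤ C1 * ((x : ℝ) + (s : ℝ) ^ 2 + 1) := hy1
      _ ≤ C1 * (((M : ℝ) + 1 + (2 * (k : ℝ)) ^ (1 / δ) + (2 * (k : ℝ)) ^ 2) * L ^ E) :=
        mul_le_mul_of_nonneg_left h10 hC1.le
      _ = K * L ^ E := by rw [hK]; ring
  have hyL : (y : ℝ) ≤ L ^ (E + 1) := by
    rw [Real.rpow_add hL0, Real.rpow_one, mul_comm]
    exact hyK.trans (mul_le_mul_of_nonneg_right hKL (by linarith))
  refine ⟨hyL, ?_⟩
  have hy0 : (0 : ℝ) < y := by exact_mod_cast hy.pos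
  have h4 : n ≤ y ^ s := by
    calc n ≤ n.choose k := le_choose n k (by omega) (by omega)
      _ = ∏ p ∈ PB x y, p := hprod
      _ ≤ y ^ s := by
          rw [hs, ← Finset.prod_const]
          exact Finset.prod_le_prod' fun p hp => (hmem p hp).2.2
  have h5 : (n : ℝ) ≤ (y : ℝ) ^ s := by exact_mod_cast h4
  have h6 := Real.log_le_log hnpos h5
  rw [Real.log_pow] at h6
  have h7 : Real.log y ≤ (E + 1) * Real.log L := by
    have h8 := Real.log_le_log hy0 hyL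
    rwa [Real.log_rpow hL0] at h8
  calc L ≤ s * Real.log y := h6
    _ ≤ s * ((E + 1) * Real.log L) := mul_le_mul_of_nonneg_left h7 (Nat.cast_nonneg _)
    _ = (E + 1) * s * Real.log L := by ring

end Pool.Agent.K1H64.BC
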